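import Pool.Agent.H8.DS.TarA

/-!
# MP_81a758_an, board `ds_modules`: [FIX] a word between two points with the same past has a
periodic point
-/

set_option autoImplicit false

namespace DS

open Filter Topology

namespace FIXaux

variable {S B : Type}

/-- the end slit of a nonempty word does not depend on the starting point -/
theorem go_end (Y : Sys S B) (w : List B) (hw : w ≠ []) {y y' z z' : S × ℝ}
    (h : Y.Go w y y') (h' : Y.Go w z z') : y'.1 = z'.1 := by
  induction w generalizing y z with
  | nil => exact absurd rfl hw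
  | cons b w ih =>
    obtain ⟨_, _, h3⟩ := h
    obtain ⟨_, _, h3'⟩ := h'
    by_cases hw' : w = []
    · subst hw'
      simp only [Sys.Go] at h3 h3'
      rw [← h3, ← h3']
    · exact ih hw' h3 h3'

theorem iter_succ (u : List B) (k : ℕ) :
    (List.replicate (k + 1) u).flatten = (List.replicate k u).flatten ++ u := by
  rw [List.replicate_succ', List.flatten_append, List.flatten_cons, List.flatten_nil,
    List.append_nil]

end FIXaux

open FIXaux in
theorem pf_FIX (hI : T_ITER) (hCl : T_CLOSE) : T_FIX := by
  intro S B Y mw L ρ br n hC hG w hw u hu z y z₁ y₁ h1 h2 h3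
  obtain ⟨hy1, hA, hk⟩ := hI S B Y mw L ρ br n hC hG w hw u hu z y z₁ y₁ h1 h2 h3
  choose p q hp hq using hk
  have hA0 := Y.wal_pos u
  set A := Y.wal u with hAdef
  set c := Y.wc u with hcdef
  have hstep : ∀ k, Y.Go u (p k) (p (k + 1)) := by
    intro k
    have h4 := hp (k + 1)
    rw [iter_succ, Y.Go_append] at h4
    obtain ⟨y', h5, h6⟩ := h4
    rwa [Y.Go_fun _ _ _ _ h5 (hp k)] at h6
  have hslit : ∀ k, (p k).1 = y.1 := by
    intro k
    cases k with
    | zero =>
      have h4 : y = p 0 := hp 0
      rw [← h4]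
    | succ k => exact (go_end Y u hu (hstep k) h2).trans hy1
  have h1A : (1 - A) ≠ 0 := by linarith
  set x := c / (1 - A) with hx
  have hxfix : A * x + c = x := by
    rw [hx]
    field_simp
    ring
  have hval : ∀ k, (p k).2 = A ^ k * ((p 0).2 - x) + x := by
    intro k
    induction k with
    | zero => ring
    | succ k ih =>
      rw [Y.Go_val _ _ _ (hstep k), ← hAdef, ← hcdef, ih]
      linear_combination hxfix
  have hlim : Tendsto (fun k => (p k).2) atTop (𝓝 x) := by
    have h4 : Tendsto (fun k : ℕ => A ^ k * ((p 0).2 - x) + x) atTop (𝓝 (0 * ((p 0).2 - x) + x)) :=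
      ((tendsto_pow_atTop_nhds_zero_of_lt_one hA0.le hA).mul_const _).add_const _
    rw [zero_mul, zero_add] at h4
    exact h4.congr fun k => (hval k).symm
  have heta : ∀ k, (y.1, (p k).2) = p k := fun k => Prod.ext (hslit k).symm rfl
  obtain ⟨y', hy'⟩ := hCl S B Y mw L ρ br n hC hG w hw y.1 (fun k => (p k).2) x hlim
    (fun k => ⟨q k, by rw [heta]; exact hq k⟩) u (fun k => p (k + 1))
    (fun k => by rw [heta]; exact hstep k)
  refine ⟨x, ?_⟩
  have h5 : y' = (y.1, x) := by
    refine Prod.ext ((go_end Y u hu hy' h2).trans hy1) ?_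
    rw [Y.Go_val _ _ _ hy', ← hAdef, ← hcdef]
    exact hxfix
  rwa [h5] at hy'

end DS
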