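import Pool.Agent.H8.DS.TarA

/-!
# MP_81a758_an, board `ds_modules`: [ITER] iteration of a word between points with the same past
-/

set_option autoImplicit false

namespace DS

namespace ITERaux

variable {S B : Type}

/-- the end slit of a nonempty word does not depend on the starting point -/
theorem go_end (Y : Sys S B) (w : List B) (hw : w ≠ []) {y y' z z' : S × ℝ}
    (h : Y.Go w y y') (h' : Y.Go w z z') : y'.1 = z'.1 := by
  induction w generalizing y z with
  | nil => exact absurd rfl hw
  | cons b w ih =>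
    obtain ⟨_, _, h3⟩ := h
    obtain ⟨_, _, h3'⟩ := h'
    by_cases hw' : w = []
    · subst hw'
      simp only [Sys.Go] at h3 h3'
      rw [← h3, ← h3']
    · exact ih hw' h3 h3'

theorem wal_iter (Y : Sys S B) (u : List B) (k : ℕ) :
    Y.wal (List.replicate k u).flatten = Y.wal u ^ k := by
  induction k with
  | zero => simp [Sys.wal]
  | succ k ih =>
    rw [List.replicate_succ, List.flatten_cons, Sys.wal_append, ih, pow_succ]

theorem iter_succ (u : List B) (k : ℕ) :
    (List.replicate (k + 1) u).flatten = (List.replicate k u).flatten ++ u := by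
  rw [List.replicate_succ', List.flatten_append, List.flatten_cons, List.flatten_nil,
    List.append_nil]

end ITERaux

open ITERaux in
theorem pf_ITER (hN : T_NEXT) (hS : T_SAME) (hSl : T_SLOPE) : T_ITER := by
  intro S B Y mw L ρ br n hC hG w hw u hu z y z₁ y₁ h1 h2 h3
  have hn : 0 < n := by
    cases u with
    | nil => exact absurd rfl hu
    | cons b u => exact (hN S B Y mw L ρ br n hC hG w hw z y h1 b h2.1 h2.2.1).1
  have hw0 : w ≠ [] := by
    rintro rfl
    simp only [List.length_nil] at hw
    omega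
  have hy1 : y₁.1 = y.1 := go_end Y w hw0 h3 h1
  obtain ⟨u₀, hu₀⟩ : ∃ u₀, w ++ u = u₀ ++ w := by
    have h12 : Y.Go (w ++ u) z y₁ := (Y.Go_append w u z y₁).2 ⟨y, h1, h2⟩
    rw [← List.take_append_drop u.length (w ++ u), Y.Go_append] at h12
    obtain ⟨z', _, h4⟩ := h12
    have hl : ((w ++ u).drop u.length).length = w.length := by
      rw [List.length_drop, List.length_append]
      omega
    obtain ⟨h5, _⟩ := Y.Go_inj _ _ _ _ _ hl h4 h3
    refine ⟨(w ++ u).take u.length, ?_⟩
    nth_rewrite 1 [← List.take_append_drop u.length (w ++ u)]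
    rw [h5]
  have key : ∀ k : ℕ, ∃ y' z', Y.Go (List.replicate k u).flatten y y' ∧ Y.Go w z' y' := by
    intro k
    induction k with
    | zero => exact ⟨y, z, rfl, h1⟩
    | succ k ih =>
      obtain ⟨y', z', a, b⟩ := ih
      obtain ⟨y'', c⟩ := hS S B Y mw L ρ br n hC hG w hw z y z' y' h1 b u y₁ h2
      have d : Y.Go (w ++ u) z' y'' := (Y.Go_append w u z' y'').2 ⟨y', b, c⟩
      rw [hu₀, Y.Go_append] at d
      obtain ⟨z'', _, e⟩ := d
      refine ⟨y'', z'', ?_, e⟩
      rw [iter_succ, Y.Go_append]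
      exact ⟨y', a, c⟩
  refine ⟨hy1, ?_, key⟩
  obtain ⟨y', z', a, b⟩ := key L
  have hy' : y'.1 = y.1 := go_end Y w hw0 b h1
  have hlen : (List.replicate L u).flatten.length = u.length * L := by
    rw [List.length_flatten, List.map_replicate, List.sum_replicate, smul_eq_mul, mul_comm]
  have h6 := (hSl S B Y mw L ρ hC.mpos hC.nonexp hC.ρ0.le hC.contr).2 u.length _ y y' hlen a
  rw [wal_iter, hy'] at h6
  have h7 : Y.wal u ^ L ≤ ρ ^ u.length := le_of_mul_le_mul_right h6 (hC.mpos _)
  have h8 : ρ ^ u.length < 1 :=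
    pow_lt_one₀ hC.ρ0.le hC.ρ1 (by rw [Ne, List.length_eq_zero_iff]; exact hu)
  by_contra h9
  have h10 : 1 ≤ Y.wal u ^ L := one_le_pow₀ (not_lt.1 h9)
  linarith

end DS
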